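import Mathlib
import Pool.Agent.H731_RD.N3

/-!
# Reductive operators `T + κ F` with `F` compact and normal and `κ` large (MP_49c4d9_an)

`T` is an arbitrary bounded operator and `F` a compact normal operator.  If `κ` is large and
`S = T + κ F` is reductive then `S` is normal on the closed `T`-invariant subspace `M` generated by the range of
`F`, and `M` reduces `T`, `F` and `S`.  In particular `S` is normal if `F` is injective.

The proof: for every nonzero eigenvalue `μ` of `F` with eigenprojection `P` the operator `S` has, for large `κ`,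
a finite dimensional invariant subspace close to the range of `P`, the range of an idempotent `V = P + X` with
`X` solving a Riccati equation.  If `S` is reductive it is normal there.  A sequence of large reductive couplings
with `conj κ / κ → θ` gives `[T*, F] = θ [T, F*]`, whence the self-commutator of `T + κ F` is an
affine function of `θ κ - conj κ` with values in the self-adjoint operators.  A comparison of the idempotents
`V` for two couplings shows that this number is the same for all large reductive couplings, and an induction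
shows that the self-commutator vanishes on `M`.
-/

set_option autoImplicit false

open Filter Topology
open scoped InnerProductSpace ComplexConjugate

namespace Pool.Agent.Results.MP_49c4d9_an.LargeCompact

variable {H : Type*} [NormedAddCommGroup H] [InnerProductSpace ℂ H] [CompleteSpace H]

/-- `S` is reductive: every closed invariant subspace is invariant under the adjoint. -/
def Reductive (S : H →L[ℂ] H) : Prop :=
  ∀ V : Submodule ℂ H, IsClosed (V : Set H) → (∀ x ∈ V, S x ∈ V) →
    ∀ x ∈ V, ContinuousLinearMap.adjoint S x ∈ V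

/-- The closed linear span of the vectors `T ^ k (F x)`. -/
def gen (T F : H →L[ℂ] H) : Submodule ℂ H :=
  (Submodule.span ℂ {y | ∃ (k : ℕ) (x : H), y = (T ^ k) (F x)}).topologicalClosure

/-- The conclusions about one operator `S = T + κ F`. -/
def Good (T F S : H →L[ℂ] H) : Prop :=
  (∀ x ∈ gen T F, T x ∈ gen T F ∧ ContinuousLinearMap.adjoint T x ∈ gen T F ∧ F x ∈ gen T F ∧
    ContinuousLinearMap.adjoint F x ∈ gen T F) ∧
  (∀ x ∈ gen T F,
    ContinuousLinearMap.adjoint S (S x) = S (ContinuousLinearMap.adjoint S x)) ∧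
  (∀ x ∈ (gen T F)ᗮ, S x = T x ∧ ContinuousLinearMap.adjoint S x = ContinuousLinearMap.adjoint T x) ∧
  ((∀ x ∈ (gen T F)ᗮ,
    ContinuousLinearMap.adjoint T (T x) = T (ContinuousLinearMap.adjoint T x)) → IsStarNormal S) ∧
  (gen T F = ⊤ → IsStarNormal S)

omit [CompleteSpace H] in
lemma range_mem (T F : H →L[ℂ] H) (x : H) : F x ∈ gen T F :=
  (Submodule.le_topologicalClosure _) (Submodule.subset_span ⟨0, x, by simp⟩)

omit [CompleteSpace H] in
lemma map_mem (T F : H →L[ℂ] H) {x : H} (hx : x ∈ gen T F) : T x ∈ gen T F := by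
  have hcl : IsClosed (((gen T F).comap T.toLinearMap : Submodule ℂ H) : Set H) :=
    (Submodule.isClosed_topologicalClosure _).preimage T.continuous
  have hTV : gen T F ≤ (gen T F).comap T.toLinearMap := by
    refine Submodule.topologicalClosure_minimal _ ?_ hcl
    rw [Submodule.span_le]
    rintro _ ⟨k, y, rfl⟩
    refine (Submodule.le_topologicalClosure _) (Submodule.subset_span ⟨k + 1, y, ?_⟩)
    simp only [pow_succ']
    rfl
  exact hTV hx

omit [CompleteSpace H] in
lemma ker_of_gen {T F L : H →L[ℂ] H} (h : ∀ k : ℕ, L * T ^ k * F = 0) {x : H}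
    (hx : x ∈ gen T F) : L x = 0 := by
  have h1 : gen T F ≤ LinearMap.ker L.toLinearMap := by
    refine Submodule.topologicalClosure_minimal _ ?_ L.isClosed_ker
    rw [Submodule.span_le]
    rintro _ ⟨k, y, rfl⟩
    exact congrArg (fun A : H →L[ℂ] H => A y) (h k)
  exact h1 hx

lemma good_of {T F : H →L[ℂ] H} {κ : ℂ} (hn : star F * F = F * star F)
    (hr : Reductive (T + κ • F))
    (h : ∀ k : ℕ, Pool.Agent.H731_RD.SC (T + κ • F) * T ^ k * F = 0) :
    Good T F (T + κ • F) := by
  set S := T + κ • F with hS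
  have hSs : ∀ x, ContinuousLinearMap.adjoint S x
      = ContinuousLinearMap.adjoint T x + conj κ • (star F) x := fun x => by
    have h1 : star S = star T + conj κ • star F := by rw [hS, star_add, star_smul]; rfl
    exact congrArg (fun A : H →L[ℂ] H => A x) h1
  have hFM : ∀ x : H, F x ∈ gen T F := range_mem T F
  have hcl : IsClosed ((gen T F : Submodule ℂ H) : Set H) :=
    Submodule.isClosed_topologicalClosure _
  have : CompleteSpace (gen T F) := hcl.completeSpace_coe
  have hF0 : ∀ x ∈ (gen T F)ᗮ, F x = 0 ∧ (star F) x = 0 := fun x hx => by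
    have h1 : ⟪F ((star F) x), x⟫_ℂ = 0 := (Submodule.mem_orthogonal _ _).mp hx _ (hFM _)
    rw [← Pool.Agent.H731_RD.adj_r] at h1
    have h2 : (star F) x = 0 := inner_self_eq_zero.mp h1
    have h3 := Pool.Agent.H731_RD.nrm_eig' hn (μ := 0) (x := x) (by rw [h2, map_zero, zero_smul])
    rw [zero_smul] at h3
    exact ⟨h3, h2⟩
  have hFM' : ∀ x : H, (star F) x ∈ gen T F := fun x => by
    have h1 : (star F) x ∈ (gen T F)ᗮᗮ := by
      rw [Submodule.mem_orthogonal]
      intro y hy
      rw [Pool.Agent.H731_RD.adj_r, (hF0 y hy).1, inner_zero_left]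
    rwa [Submodule.orthogonal_orthogonal] at h1
  have hSM' : ∀ x ∈ gen T F, ContinuousLinearMap.adjoint S x ∈ gen T F :=
    hr (gen T F) hcl (fun x hx =>
      Submodule.add_mem _ (map_mem T F hx) (Submodule.smul_mem _ _ (hFM x)))
  have hTM' : ∀ x ∈ gen T F, ContinuousLinearMap.adjoint T x ∈ gen T F := fun x hx => by
    have h2 := hSM' x hx
    rw [hSs] at h2
    exact (Submodule.add_mem_iff_left _ (Submodule.smul_mem _ _ (hFM' x))).mp h2
  have hN : ∀ x ∈ gen T F,
      ContinuousLinearMap.adjoint S (S x) = S (ContinuousLinearMap.adjoint S x) := fun x hx =>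
    sub_eq_zero.mp (ker_of_gen h hx)
  have hO : ∀ x ∈ (gen T F)ᗮ, S x = T x ∧
      ContinuousLinearMap.adjoint S x = ContinuousLinearMap.adjoint T x := fun x hx => by
    rw [hSs, (hF0 x hx).2, smul_zero, add_zero]
    refine ⟨?_, rfl⟩
    change T x + κ • F x = T x
    rw [(hF0 x hx).1, smul_zero, add_zero]
  have hfin : (∀ x ∈ (gen T F)ᗮ, ContinuousLinearMap.adjoint T (T x)
      = T (ContinuousLinearMap.adjoint T x)) → IsStarNormal S := by
    intro hT
    have hT1 : ∀ x ∈ (gen T F)ᗮ, T x ∈ (gen T F)ᗮ := fun x hx => by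
      rw [Submodule.mem_orthogonal]
      intro y hy
      rw [← ContinuousLinearMap.adjoint_inner_left]
      exact (Submodule.mem_orthogonal _ _).mp hx _ (hTM' y hy)
    have hT2 : ∀ x ∈ (gen T F)ᗮ, ContinuousLinearMap.adjoint T x ∈ (gen T F)ᗮ := fun x hx => by
      rw [Submodule.mem_orthogonal]
      intro y hy
      rw [ContinuousLinearMap.adjoint_inner_right]
      exact (Submodule.mem_orthogonal _ _).mp hx _ (map_mem T F hy)
    refine ⟨?_⟩
    change star S * S = S * star S
    rw [ContinuousLinearMap.star_eq_adjoint]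
    ext x
    change ContinuousLinearMap.adjoint S (S x) = S (ContinuousLinearMap.adjoint S x)
    obtain ⟨y, hy, z, hz, rfl⟩ := (gen T F).exists_add_mem_mem_orthogonal x
    have a1 : S (y + z) = S y + S z := map_add S y z
    have a2 : ContinuousLinearMap.adjoint S (y + z)
        = ContinuousLinearMap.adjoint S y + ContinuousLinearMap.adjoint S z :=
      map_add (ContinuousLinearMap.adjoint S) y z
    have a3 : ContinuousLinearMap.adjoint S (S y + S z)
        = ContinuousLinearMap.adjoint S (S y) + ContinuousLinearMap.adjoint S (S z) :=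
      map_add (ContinuousLinearMap.adjoint S) _ _
    have a4 : S (ContinuousLinearMap.adjoint S y + ContinuousLinearMap.adjoint S z)
        = S (ContinuousLinearMap.adjoint S y) + S (ContinuousLinearMap.adjoint S z) :=
      map_add S _ _
    rw [a1, a2, a3, a4, hN y hy, (hO z hz).1, (hO z hz).2,
      (hO _ (hT1 z hz)).2, (hO _ (hT2 z hz)).1, hT z hz]
  refine ⟨fun x hx => ⟨map_mem T F hx, hTM' x hx, hFM x, hFM' x⟩, hN, hO, hfin,
    fun htop => hfin fun x hx => ?_⟩
  rw [htop, Submodule.top_orthogonal_eq_bot, Submodule.mem_bot] at hx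
  rw [hx]
  simp

lemma gen_top {T F : H →L[ℂ] H} (hn : star F * F = F * star F) (hinj : Function.Injective F) :
    gen T F = ⊤ := by
  have hcl : IsClosed ((gen T F : Submodule ℂ H) : Set H) :=
    Submodule.isClosed_topologicalClosure _
  have : CompleteSpace (gen T F) := hcl.completeSpace_coe
  rw [← Submodule.orthogonal_eq_bot_iff, Submodule.eq_bot_iff]
  intro x hx
  have h1 : ⟪F ((star F) x), x⟫_ℂ = 0 := (Submodule.mem_orthogonal _ _).mp hx _ (range_mem T F _)
  rw [← Pool.Agent.H731_RD.adj_r] at h1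
  have h2 : (star F) x = 0 := inner_self_eq_zero.mp h1
  have h3 := Pool.Agent.H731_RD.nrm_eig' hn (μ := 0) (x := x) (by rw [h2, map_zero, zero_smul])
  rw [zero_smul] at h3
  exact hinj (by rw [h3, map_zero])

/-- The first part, for one pair `T, F`. -/
lemma part1 (T F : H →L[ℂ] H) (hF : IsCompactOperator F) (hs : IsStarNormal F) :
    ∃ K : ℝ, (∀ κ : ℂ, K ≤ ‖κ‖ → Reductive (T + κ • F) → Good T F (T + κ • F)) ∧
      (T * F ≠ F * T → ∃ a b : ℂ, ∀ κ : ℂ, K ≤ ‖κ‖ → Reductive (T + κ • F) →
        ∃ r : ℝ, κ = a + r * b) := by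
  have hn : star F * F = F * star F := hs.star_comm_self
  obtain ⟨K, h1, h2⟩ := Pool.Agent.H731_RD.mainN (T := T) hF hn
  refine ⟨K, fun κ hκ hr => good_of hn hr (h1 κ hκ hr), fun hne => ?_⟩
  obtain ⟨a, θ, hθ, hline⟩ := h2 hne
  have hθθ : θ * conj θ = 1 := by
    rw [RCLike.mul_conj, hθ]
    norm_num
  obtain ⟨b, hb⟩ := IsAlgClosed.exists_pow_nat_eq (conj θ) (n := 2) (by norm_num)
  have hbn : ‖b‖ = 1 := by
    have h3 : ‖b‖ ^ 2 = 1 := by rw [← norm_pow, hb, RCLike.norm_conj, hθ]
    nlinarith [norm_nonneg b]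
  have hbb : b * conj b = 1 := by
    rw [RCLike.mul_conj, hbn]
    norm_num
  have hb0 : b ≠ 0 := norm_pos_iff.mp (by rw [hbn]; exact one_pos)
  have hθb : θ * b = conj b := by
    have h3 : b * (θ * b - conj b) = 0 := by
      linear_combination θ * hb + hθθ - hbb
    exact sub_eq_zero.mp ((mul_eq_zero.mp h3).resolve_left hb0)
  refine ⟨a, b, fun κ hκ hred => ?_⟩
  have h3 := hline _ hκ hred
  have h4 : conj ((κ - a) * conj b) = (κ - a) * conj b := by
    rw [map_mul, ← h3, Complex.conj_conj]
    linear_combination (κ - a) * hθb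
  obtain ⟨r, hr⟩ := Complex.conj_eq_iff_real.mp h4
  refine ⟨r, ?_⟩
  rw [← hr]
  linear_combination -(κ - a) * hbb

lemma red_smul {S : H →L[ℂ] H} {c : ℂ} (hc : c ≠ 0) (h : Reductive S) : Reductive (c • S) := by
  intro V hV hinv x hx
  have h1 : ∀ y ∈ V, S y ∈ V := fun y hy => (Submodule.smul_mem_iff _ hc).mp (hinv y hy)
  have h2 : ContinuousLinearMap.adjoint (c • S) = conj c • ContinuousLinearMap.adjoint S :=
    map_smulₛₗ _ _ _
  rw [h2]
  exact Submodule.smul_mem _ _ (h V hV h1 x hx)

/-- **Theorem.** Let `T` be a bounded operator.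
(1) For every compact normal `F` there is `K` such that for `|κ| ≥ K`, if `S = T + κ F` is reductive then
the closed `T`-invariant subspace generated by the range of `F` reduces `T`, `F` and `S`, and `S` is normal on
it; if `T` and `F` do not commute then all these `κ` lie on one real line of the complex plane.
(2) If `F` is compact, normal and injective then `F + z T` is normal if it is reductive, for all
sufficiently small complex `z`.
(3) If `u` and `v` are linearly independent then `T + κ (u ⊗ v)` is not reductive for large `κ`. -/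
theorem result (T : H →L[ℂ] H) :
    (∀ F : H →L[ℂ] H, IsCompactOperator F → IsStarNormal F →
      ∃ K : ℝ, (∀ κ : ℂ, K ≤ ‖κ‖ → Reductive (T + κ • F) → Good T F (T + κ • F)) ∧
        (T * F ≠ F * T → ∃ a b : ℂ, ∀ κ : ℂ, K ≤ ‖κ‖ → Reductive (T + κ • F) →
          ∃ r : ℝ, κ = a + r * b)) ∧
    (∀ F : H →L[ℂ] H, IsCompactOperator F → IsStarNormal F → Function.Injective F →
      ∃ ε : ℝ, 0 < ε ∧ ∀ z : ℂ, ‖z‖ < ε → Reductive (F + z • T) → IsStarNormal (F + z • T)) ∧
    (∀ u v : H, u ≠ 0 → (¬ ∃ c : ℂ, v = c • u) → ∃ K : ℝ, ∀ (κ : ℂ) (S : H →L[ℂ] H), K ≤ ‖κ‖ →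
      (∀ x, S x = T x + (κ * ⟪v, x⟫_ℂ) • u) → ¬ Reductive S) := by
  refine ⟨fun F hF hs => part1 T F hF hs, fun F hF hs hinj => ?_, fun u v hu huv => ?_⟩
  · obtain ⟨K, h1, -⟩ := part1 T F hF hs
    refine ⟨(|K| + 1)⁻¹, by positivity, fun z hz hr => ?_⟩
    by_cases hz0 : z = 0
    · rw [hz0, zero_smul, add_zero]
      exact hs
    · have h2 : F + z • T = z • (T + z⁻¹ • F) := by
        rw [smul_add, smul_smul, mul_inv_cancel₀ hz0, one_smul, add_comm]
      have h3 : T + z⁻¹ • F = z⁻¹ • (F + z • T) := by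
        rw [h2, smul_smul, inv_mul_cancel₀ hz0, one_smul]
      have h4 : Reductive (T + z⁻¹ • F) := by
        rw [h3]; exact red_smul (inv_ne_zero hz0) hr
      have h5 : K ≤ ‖z⁻¹‖ := by
        have hzp : 0 < ‖z‖ := norm_pos_iff.mpr hz0
        have h6 : |K| + 1 < ‖z‖⁻¹ := by
          rw [lt_inv_comm₀ (by positivity) hzp]
          exact hz
        rw [norm_inv]
        have := le_abs_self K
        linarith
      have h6 := (h1 _ h5 h4).2.2.2.2 (gen_top hs.star_comm_self hinj)
      rw [h2]
      refine ⟨?_⟩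
      have h7 : star (T + z⁻¹ • F) * (T + z⁻¹ • F) = (T + z⁻¹ • F) * star (T + z⁻¹ • F) :=
        h6.star_comm_self
      change star (z • (T + z⁻¹ • F)) * (z • (T + z⁻¹ • F))
        = (z • (T + z⁻¹ • F)) * star (z • (T + z⁻¹ • F))
      rw [star_smul, smul_mul_smul_comm, smul_mul_smul_comm, h7, mul_comm (star z) z]
  · have hv : v ≠ 0 := fun h0 => huv ⟨0, by rw [h0, zero_smul]⟩
    by_contra hno
    push Not at hno
    have hbad : ∀ K : ℝ, ∃ κ : ℂ, K ≤ ‖κ‖ ∧ Reductive (Pool.Agent.H731_RD.pert T u v κ) := by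
      intro K
      obtain ⟨κ, S, hκ, hS, hr⟩ := hno K
      refine ⟨κ, hκ, ?_⟩
      have h1 : S = Pool.Agent.H731_RD.pert T u v κ := by
        ext x
        rw [hS, Pool.Agent.H731_RD.pert_apply]
      rwa [← h1]
    rcases Pool.Agent.H731_RD.large_ev T (u, innerSL ℂ v) with h | h
    · have h0 : ∀ k : ℕ, ⟪v, (T ^ k) u⟫_ℂ = 0 := h
      set V : Submodule ℂ H :=
        (Submodule.span ℂ (Set.range fun k : ℕ => (T ^ k) u)).topologicalClosure with hV
      have hVcl : IsClosed (V : Set H) := Submodule.isClosed_topologicalClosure _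
      have huV : u ∈ V := (Submodule.le_topologicalClosure _) (Submodule.subset_span ⟨0, by simp⟩)
      have hTV : ∀ x ∈ V, T x ∈ V := fun x hx => by
        have h1 : V ≤ V.comap T.toLinearMap := by
          refine Submodule.topologicalClosure_minimal _ ?_ (hVcl.preimage T.continuous)
          rw [Submodule.span_le]
          rintro _ ⟨k, rfl⟩
          refine (Submodule.le_topologicalClosure _) (Submodule.subset_span ⟨k + 1, ?_⟩)
          simp only [pow_succ']
          rfl
        exact h1 hx
      have hvV : ∀ x ∈ V, ⟪v, x⟫_ℂ = 0 := fun x hx => by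
        have h1 : V ≤ LinearMap.ker (innerSL ℂ v).toLinearMap := by
          refine Submodule.topologicalClosure_minimal _ ?_ (innerSL ℂ v).isClosed_ker
          rw [Submodule.span_le]
          rintro _ ⟨k, rfl⟩
          exact h0 k
        exact h1 hx
      obtain ⟨κ₁, -, hr₁⟩ := hbad 0
      obtain ⟨κ₂, hκ₂, hr₂⟩ := hbad (‖κ₁‖ + 1)
      have hne : κ₂ ≠ κ₁ := by
        rintro rfl
        linarith
      have hinv : ∀ κ : ℂ, Reductive (Pool.Agent.H731_RD.pert T u v κ) →
          ContinuousLinearMap.adjoint T u + (conj κ * ⟪u, u⟫_ℂ) • v ∈ V := fun κ hr => by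
        rw [← Pool.Agent.H731_RD.adj_apply]
        refine hr V hVcl (fun x hx => ?_) u huV
        rw [Pool.Agent.H731_RD.pert_apply, hvV x hx, mul_zero, zero_smul, add_zero]
        exact hTV x hx
      have h3 := Submodule.sub_mem _ (hinv κ₂ hr₂) (hinv κ₁ hr₁)
      have h4 : ContinuousLinearMap.adjoint T u + (conj κ₂ * ⟪u, u⟫_ℂ) • v
          - (ContinuousLinearMap.adjoint T u + (conj κ₁ * ⟪u, u⟫_ℂ) • v)
          = (conj (κ₂ - κ₁) * ⟪u, u⟫_ℂ) • v := by
        rw [map_sub]; module
      rw [h4] at h3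
      have h5 : conj (κ₂ - κ₁) * ⟪u, u⟫_ℂ ≠ 0 :=
        mul_ne_zero ((map_ne_zero _).mpr (sub_ne_zero.mpr hne)) (inner_self_ne_zero.mpr hu)
      have h6 : v ∈ V := (Submodule.smul_mem_iff _ h5).mp h3
      exact hv (inner_self_eq_zero.mp (hvV v h6))
    · exact huv (Pool.Agent.H731_RD.parallel hu h hbad)

end Pool.Agent.Results.MP_49c4d9_an.LargeCompact
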